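import Mathlib
import Pool.Prelude.Def_F_c31e40fa
import Pool.Agent.W_1365a2_h11.Asm

set_option autoImplicit false

/-!
# The area of the boundary of the Multibrot set of power `n` is at most `C / n`

More precisely, the part of the boundary where `n |c| ^ (n - 1) ≥ t` has area at most
`C (1 + log (1 + t)) / ((1 + t) n)`, for all `t ≥ 0`.
-/

namespace Pool.Agent.Results.MP_1365a2_an.AreaBound

open MeasureTheory Real N62a1eb23

theorem result : ∃ C : ℝ, ∀ n : ℕ, 2 ≤ n → ∀ t : ℝ, 0 ≤ t →
    volume {c : ℂ | c ∈ frontier (multibrotSet n) ∧ t ≤ n * ‖c‖ ^ (n - 1)} ≤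
      ENNReal.ofReal (C * (1 + log (1 + t)) / ((1 + t) * n)) := by
  have hp : 0 < π := Real.pi_pos
  have hl1 : 0 ≤ log 1200 := Real.log_nonneg (by norm_num)
  have hl2 : 0 ≤ log 400 := Real.log_nonneg (by norm_num)
  set A : ℝ := 6144000000 * π with hA
  have hA0 : 0 < A := by positivity
  set B : ℝ := 8 * π * log 1200 + A * (1 + log 400) / 400 with hB
  have hB0 : 0 ≤ B := by positivity
  refine ⟨4 * A + 802 * B + 4 * π * (16 * 401), fun n hn t ht => ?_⟩
  set C : ℝ := 4 * A + 802 * B + 4 * π * (16 * 401) with hC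
  have hn2 : (2 : ℝ) ≤ n := by exact_mod_cast hn
  have hn0 : (0 : ℝ) < n := by linarith
  have hm : ((n - 1 : ℕ) : ℝ) = n - 1 := by
    rw [Nat.cast_sub (by omega)]
    simp
  have hm0 : (0 : ℝ) < ((n - 1 : ℕ) : ℝ) := by
    rw [hm]
    linarith
  have hmn : (n : ℝ) ≤ 2 * ((n - 1 : ℕ) : ℝ) := by
    rw [hm]
    linarith
  have hlt : 0 ≤ log (1 + t) := Real.log_nonneg (by linarith)
  have hset : {c : ℂ | c ∈ frontier (multibrotSet n) ∧ t ≤ n * ‖c‖ ^ (n - 1)} =
      frontier (multibrotSet n) ∩ {c | t ≤ n * ‖c‖ ^ (n - 1)} := rfl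
  rw [hset]
  rcases le_or_gt 400 t with h400 | h400
  · -- large `t`
    rcases Nat.lt_or_ge n 16 with h16 | h16
    · have h1 : frontier (multibrotSet n) ∩ {c | t ≤ n * ‖c‖ ^ (n - 1)} = ∅ := by
        ext c
        simp only [Set.mem_inter_iff, Set.mem_ofPred_eq, Set.mem_empty_iff_false, iff_false,
          not_and, not_le]
        intro hc
        have h2 := W_1365a2_h11.rho_le_two hn hc
        have h3 : (n : ℝ) ≤ 16 := by exact_mod_cast h16.le
        have h4 : n * ‖c‖ ^ (n - 1) ≤ 16 * 2 :=
          mul_le_mul h3 h2 (by positivity) (by norm_num)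
        linarith
      rw [h1, measure_empty]
      exact zero_le
    · refine (W_1365a2_h11.volume_outer_le h16 h400).trans (ENNReal.ofReal_le_ofReal ?_)
      have h1 : log t ≤ log (1 + t) := Real.log_le_log (by linarith) (by linarith)
      rw [← hA, div_le_div_iff₀ (by positivity) (by positivity)]
      have h2 : (1 + t) * n ≤ 4 * (t * ((n - 1 : ℕ) : ℝ)) := by
        have h3 : (1 + t) * n ≤ (2 * t) * (2 * ((n - 1 : ℕ) : ℝ)) :=
          mul_le_mul (by linarith) hmn hn0.le (by linarith)
        linarith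
      have h4 : A * (1 + log t) ≤ A * (1 + log (1 + t)) :=
        mul_le_mul_of_nonneg_left (by linarith) hA0.le
      have h5 : 0 ≤ A * (1 + log (1 + t)) := by positivity
      have h6 : 4 * (A * (1 + log (1 + t))) ≤ C * (1 + log (1 + t)) := by
        have h7 : 4 * A ≤ C := by
          have : 0 ≤ 4 * π * (16 * 401) := by positivity
          linarith
        have := mul_le_mul_of_nonneg_right h7 (by linarith : 0 ≤ 1 + log (1 + t))
        linarith
      calc A * (1 + log t) * ((1 + t) * n)
          ≤ A * (1 + log (1 + t)) * (4 * (t * ((n - 1 : ℕ) : ℝ))) :=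
            mul_le_mul h4 h2 (by positivity) h5
        _ = 4 * (A * (1 + log (1 + t))) * (t * ((n - 1 : ℕ) : ℝ)) := by ring
        _ ≤ C * (1 + log (1 + t)) * (t * ((n - 1 : ℕ) : ℝ)) :=
            mul_le_mul_of_nonneg_right h6 (by positivity)
  · -- small `t`
    have hlow : C / 401 / n ≤ C * (1 + log (1 + t)) / ((1 + t) * n) := by
      have hC0 : 0 ≤ C := by positivity
      rw [div_div, div_le_div_iff₀ (by positivity) (by positivity)]
      have h1 : (1 + t) * n ≤ (1 + log (1 + t)) * (401 * n) := by
        have h2 : (1 + t) * n ≤ 401 * n := mul_le_mul_of_nonneg_right (by linarith) hn0.le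
        have h3 : 0 ≤ log (1 + t) * (401 * n) := by positivity
        linarith
      calc C * ((1 + t) * n) ≤ C * ((1 + log (1 + t)) * (401 * n)) :=
            mul_le_mul_of_nonneg_left h1 hC0
        _ = C * (1 + log (1 + t)) * (401 * n) := by ring
    refine le_trans ?_ (ENNReal.ofReal_le_ofReal hlow)
    refine (measure_mono Set.inter_subset_left).trans ?_
    rcases Nat.lt_or_ge n 16 with h16 | h16
    · have h1 : frontier (multibrotSet n) ⊆ Metric.closedBall 0 2 := by
        intro c hc
        rw [mem_closedBall_zero_iff]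
        exact W_1365a2_h11.norm_le_two hn hc
      refine (measure_mono h1).trans ?_
      have h2 : volume (Metric.closedBall (0 : ℂ) 2) = ENNReal.ofReal (4 * π) := by
        rw [Complex.volume_closedBall, ← ENNReal.ofReal_pow (by norm_num),
          ENNReal.ofReal_mul (by norm_num), ← NNReal.coe_real_pi, ENNReal.ofReal_coe_nnreal]
        norm_num
      rw [h2]
      refine ENNReal.ofReal_le_ofReal ?_
      have h3 : (n : ℝ) ≤ 16 := by exact_mod_cast h16.le
      rw [div_div, le_div_iff₀ (by positivity)]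
      have h4 : 4 * π * (401 * n) ≤ 4 * π * (16 * 401) :=
        mul_le_mul_of_nonneg_left (by linarith) (by positivity)
      linarith
    · refine (W_1365a2_h11.volume_frontier_le h16).trans (ENNReal.ofReal_le_ofReal ?_)
      rw [← hA, ← hB, div_div, div_le_div_iff₀ hm0 (by positivity)]
      have h1 : 802 * B ≤ C := by
        have : 0 ≤ 4 * π * (16 * 401) := by positivity
        linarith
      calc B * (401 * n) ≤ B * (401 * (2 * ((n - 1 : ℕ) : ℝ))) := by
            refine mul_le_mul_of_nonneg_left ?_ hB0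
            linarith
        _ = 802 * B * ((n - 1 : ℕ) : ℝ) := by ring
        _ ≤ C * ((n - 1 : ℕ) : ℝ) := mul_le_mul_of_nonneg_right h1 hm0.le

end Pool.Agent.Results.MP_1365a2_an.AreaBound
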